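import Pool.Agent.H74.BTL.Targets

/-!
# Row CRS: the cross terms are bounded
-/

set_option autoImplicit false

open scoped ENNReal RealInnerProductSpace

universe u

namespace Pool.Agent.H61.BTL

open Pool.Agent.H74.BTL

theorem ind_mul (p q : Prop) : ind p * ind q = ind (q ∧ p) := by
  by_cases hp : p
  · by_cases hq : q
    · rw [ind_true hp, ind_true hq, ind_true ⟨hq, hp⟩, one_mul]
    · rw [ind_false hq, ind_false (p := q ∧ p) (fun h => hq h.1), mul_zero]
  · rw [ind_false hp, ind_false (p := q ∧ p) (fun h => hp h.2), zero_mul]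

theorem pf_CRS (h1 : T_PRB.{u}) (h2 : T_GEO) (h3 : T_OVL.{u}) (h4 : T_WSS.{u}) : T_CRS.{u} := by
  intro G _ K J _ _ t r m hS B ξ hξ
  obtain ⟨D, hD⟩ := h3 G B
  obtain ⟨CG, hCG⟩ := h2 r hS.r0 hS.r1
  set C0 : ℝ := (∑ j, ‖ξ j‖) ^ 2 with hC0
  have hC0n : 0 ≤ C0 := sq_nonneg _
  have hle : ∀ j, ‖ξ j‖ ≤ ∑ j, ‖ξ j‖ := fun j =>
    Finset.single_le_sum (f := fun j => ‖ξ j‖) (fun _ _ => norm_nonneg _) (Finset.mem_univ j)
  refine ⟨C0 * (D.card * CG), fun n k => ?_⟩
  have hpt : ∀ w : List J, w.length = n →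
      ind (pr t w ^ k ∉ K) * |⟪WS t ξ w, rt (pr t w ^ k) (WS t ξ w)⟫| ≤
      ∑ i ∈ Finset.range n, ∑ j ∈ Finset.range n, C0 • ind ((pr t (w.take i))⁻¹ * pr t w ^ k *
        pr t (w.take j) ∈ D ∧ pr t w ^ k ∉ K) := by
    rintro w rfl
    set g := pr t w with hg
    have e1 : WS t ξ w = ∑ i : Fin w.length, rt (pr t (w.take i)) (ξ (w.get i)) :=
      (h4 G J t ξ ξ).1 w
    have e2 : rt (g ^ k) (WS t ξ w) =
        ∑ j : Fin w.length, rt (g ^ k * pr t (w.take j)) (ξ (w.get j)) := by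
      rw [e1, map_sum]
      exact Finset.sum_congr rfl fun j _ => (rt_mul _ _ _).symm
    have e3 : ⟪WS t ξ w, rt (g ^ k) (WS t ξ w)⟫ = (∑ i : Fin w.length, ∑ j : Fin w.length,
        ⟪rt (pr t (w.take i)) (ξ (w.get i)), rt (g ^ k * pr t (w.take j)) (ξ (w.get j))⟫ : ℝ) := by
      rw [e2, e1, sum_inner]
      exact Finset.sum_congr rfl fun i _ => inner_sum _ _ _
    have e4 : |⟪WS t ξ w, rt (g ^ k) (WS t ξ w)⟫| ≤ ∑ i : Fin w.length, ∑ j : Fin w.length,
        C0 * ind ((pr t (w.take i))⁻¹ * (g ^ k * pr t (w.take j)) ∈ D) := by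
      rw [e3]
      refine (Finset.abs_sum_le_sum_abs _ _).trans (Finset.sum_le_sum fun i _ => ?_)
      refine (Finset.abs_sum_le_sum_abs _ _).trans (Finset.sum_le_sum fun j _ => ?_)
      refine (hD _ _ _ _ (hξ _) (hξ _)).trans ?_
      refine mul_le_mul_of_nonneg_right ?_ (ind_nonneg _)
      rw [hC0, sq]
      exact mul_le_mul (hle _) (hle _) (norm_nonneg _) ((norm_nonneg _).trans (hle (w.get i)))
    have e5 : (∑ i : Fin w.length, ∑ j : Fin w.length,
        C0 * ind ((pr t (w.take i))⁻¹ * (g ^ k * pr t (w.take j)) ∈ D)) =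
        ∑ i ∈ Finset.range w.length, ∑ j ∈ Finset.range w.length,
        C0 * ind ((pr t (w.take i))⁻¹ * (g ^ k * pr t (w.take j)) ∈ D) := by
      rw [Finset.sum_range]
      refine Finset.sum_congr rfl fun i _ => ?_
      rw [Finset.sum_range]
    rw [e5] at e4
    refine (mul_le_mul_of_nonneg_left e4 (ind_nonneg _)).trans (le_of_eq ?_)
    rw [Finset.mul_sum]
    refine Finset.sum_congr rfl fun i _ => ?_
    rw [Finset.mul_sum]
    refine Finset.sum_congr rfl fun j _ => ?_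
    rw [smul_eq_mul, ← ind_mul, ← mul_assoc (pr t (w.take i))⁻¹]
    ring
  refine (EE_mono n hpt).trans ?_
  rw [EE_sum]
  have hpr : ∀ i ∈ Finset.range n, ∀ j ∈ Finset.range n,
      EE n (fun w : List J => C0 • ind ((pr t (w.take i))⁻¹ * pr t w ^ k *
        pr t (w.take j) ∈ D ∧ pr t w ^ k ∉ K)) ≤
      C0 * (D.card * r ^ (n - (max i j - min i j))) := by
    intro i hi j hj
    rw [EE_smul, smul_eq_mul]
    exact mul_le_mul_of_nonneg_left
      (h1 G K J t r m hS D n i j k (Finset.mem_range.1 hi) (Finset.mem_range.1 hj)) hC0n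
  calc ∑ i ∈ Finset.range n, EE n (fun w : List J => ∑ j ∈ Finset.range n,
        C0 • ind ((pr t (w.take i))⁻¹ * pr t w ^ k * pr t (w.take j) ∈ D ∧ pr t w ^ k ∉ K))
      ≤ ∑ i ∈ Finset.range n, ∑ j ∈ Finset.range n,
        C0 * (D.card * r ^ (n - (max i j - min i j))) := by
        refine Finset.sum_le_sum fun i hi => ?_
        rw [EE_sum]
        exact Finset.sum_le_sum fun j hj => hpr i hi j hj
    _ = C0 * (D.card * ∑ i ∈ Finset.range n, ∑ j ∈ Finset.range n,
        r ^ (n - (max i j - min i j))) := by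
        simp only [Finset.mul_sum]
    _ ≤ C0 * (D.card * CG) :=
        mul_le_mul_of_nonneg_left (mul_le_mul_of_nonneg_left (hCG n) (Nat.cast_nonneg _)) hC0n

end Pool.Agent.H61.BTL
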